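import Mathlib
import Pool.Agent.Y748.SR.Stm7

/-!
# Project SR: exponential moments of the number of points (S_MB)
-/

open Finset Filter Topology MeasureTheory

set_option autoImplicit false

namespace Pool.Agent.Y758.SR

open Pool.Agent.Y748.SR

theorem summ (c : ℝ) (hc : 0 < c) :
    Summable fun m : ℕ => (4 : ℝ) ^ (m + 1) * Real.exp (-c * m * Real.log m) := by
  have h1 : Summable fun m : ℕ => 4 * Real.exp (-(m : ℝ)) :=
    Real.summable_exp_neg_nat.mul_left 4
  refine Summable.of_norm_bounded_eventually_nat h1 ?_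
  have h2 : Tendsto (fun m : ℕ => c * Real.log m) atTop atTop :=
    (Real.tendsto_log_atTop.comp tendsto_natCast_atTop_atTop).const_mul_atTop hc
  filter_upwards [h2.eventually_ge_atTop (Real.log 4 + 1)] with m hm
  rw [Real.norm_eq_abs, abs_of_nonneg (by positivity), pow_succ, mul_comm ((4 : ℝ) ^ m) 4,
    mul_assoc]
  refine mul_le_mul_of_nonneg_left ?_ (by norm_num)
  have h3 : (4 : ℝ) ^ m = Real.exp (m * Real.log 4) := by
    rw [mul_comm, Real.exp_mul, Real.exp_log (by norm_num), Real.rpow_natCast]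
  rw [h3, ← Real.exp_add]
  apply Real.exp_le_exp.2
  have h4 : (0 : ℝ) ≤ m := Nat.cast_nonneg m
  have h5 := mul_le_mul_of_nonneg_left hm h4
  linarith

theorem t_MB : S_MB := by
  classical
  rintro u hu ⟨c, hc, m0, hm0, hL⟩ L
  obtain ⟨n0, hn0⟩ : ∃ n0 : ℕ, ∀ n : ℕ, n0 ≤ n → (n : ℝ) / 2 ≤ u n := by
    have h := hu.lim.eventually (lt_mem_nhds (show (1 : ℝ) / 2 < 1 by norm_num))
    obtain ⟨n0, h0⟩ := eventually_atTop.1 h
    refine ⟨max n0 1, fun n hn => ?_⟩
    have h1 := h0 n (le_trans (le_max_left _ _) hn)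
    have h2 : (0 : ℝ) < n := by
      exact_mod_cast (lt_of_lt_of_le Nat.one_pos (le_trans (le_max_right _ _) hn))
    rw [lt_div_iff₀ h2] at h1
    linarith
  obtain ⟨D, hD⟩ : ∃ D : ℕ, D = n0 + 2 + 2 * L := ⟨_, rfl⟩
  obtain ⟨K0, hK0⟩ : ∃ K0 : ℕ, K0 = max m0 (4 * L) := ⟨_, rfl⟩
  have hK1 : m0 ≤ K0 := hK0 ▸ le_max_left _ _
  have hK2 : 4 * L ≤ K0 := hK0 ▸ le_max_right _ _
  obtain ⟨S, hS⟩ : ∃ S : ℝ, S = ∑' m : ℕ, (4 : ℝ) ^ (m + 1) * Real.exp (-c * m * Real.log m) :=
    ⟨_, rfl⟩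
  refine ⟨4 ^ K0 + 2 * L * D * S, fun N hN => ?_⟩
  have hN0 : (0 : ℝ) < N := by exact_mod_cast hN
  have hN1 : (1 : ℝ) ≤ N := by exact_mod_cast hN
  obtain ⟨N', hN'⟩ : ∃ N' : ℕ, N' = D * N := ⟨_, rfl⟩
  have hDN : D ≤ N' := by rw [hN']; exact Nat.le_mul_of_pos_right _ hN
  have hN'1 : 1 ≤ N' := by omega
  -- exceptional sets
  obtain ⟨E, hE⟩ : ∃ E : ℕ → Set ℕ, E = fun m => {n : ℕ | 1 ≤ n ∧ n ≤ N' ∧
    ∃ k : ℕ, m ≤ k ∧ 1 / 2 * (k : ℝ) ≤ |u (n + k) - u n - k|} := ⟨_, rfl⟩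
  obtain ⟨w, hw⟩ : ∃ w : ℕ → ℝ, w = fun n => ∑ m ∈ Finset.Ico K0 N',
    (4 : ℝ) ^ (m + 1) * (if n ∈ E m then 1 else 0) := ⟨_, rfl⟩
  obtain ⟨g, hg⟩ : ∃ g : ℝ → ℝ, g = fun x => 4 ^ K0 + ∑ n ∈ Finset.Icc 1 N',
    (Set.Icc (u n - L) (u n + L)).indicator (fun _ => w n) x := ⟨_, rfl⟩
  have hw0 : ∀ n, 0 ≤ w n := by
    intro n
    rw [hw]
    refine Finset.sum_nonneg fun m _ => ?_
    split_ifs <;> positivity
  have hpt : ∀ x ∈ Set.Ioc (0 : ℝ) N,
      (4 : ℝ) ^ ({n : ℕ | 1 ≤ n ∧ u n - x ∈ Set.Icc (-(L : ℝ)) L}.ncard) ≤ g x := by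
    intro x hx
    obtain ⟨A, hA⟩ : ∃ A : Set ℕ, A = {n : ℕ | 1 ≤ n ∧ u n - x ∈ Set.Icc (-(L : ℝ)) L} :=
      ⟨_, rfl⟩
    rw [← hA]
    have hmA : ∀ n, n ∈ A ↔ (1 ≤ n ∧ u n - x ∈ Set.Icc (-(L : ℝ)) L) := fun n => by rw [hA]; rfl
    have hsub : ∀ n ∈ A, n ∈ Finset.Icc 1 N' := by
      intro n hn
      obtain ⟨h1, h2, h3⟩ := (hmA n).1 hn
      rw [Finset.mem_Icc]
      refine ⟨h1, ?_⟩
      by_contra hcon
      have h4 : n0 ≤ n := by omega
      have h5 := hn0 n h4
      have h6 : ((D * N : ℕ) : ℝ) < n := by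
        rw [← hN']
        exact_mod_cast not_le.1 hcon
      rw [Nat.cast_mul, hD, Nat.cast_add, Nat.cast_add, Nat.cast_mul] at h6
      have h7 : (0 : ℝ) ≤ n0 := Nat.cast_nonneg _
      have h8 : (0 : ℝ) ≤ L := Nat.cast_nonneg _
      have h9 : 0 ≤ (n0 : ℝ) * N := by positivity
      have h10 : (L : ℝ) ≤ L * N := le_mul_of_one_le_right h8 hN1
      have h11 := hx.2
      push_cast at h6
      nlinarith
    have hsub' : A ⊆ ((Finset.Icc 1 N' : Finset ℕ) : Set ℕ) := fun n hn => hsub n hn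
    have hfin : A.Finite := (Finset.finite_toSet _).subset hsub'
    have hcard : A.ncard ≤ N' := by
      have := Set.ncard_le_ncard hsub' (Finset.finite_toSet _)
      rw [Set.ncard_coe_finset, Nat.card_Icc] at this
      omega
    by_cases hK : A.ncard ≤ K0
    · refine (pow_le_pow_right₀ (by norm_num) hK).trans ?_
      rw [hg]
      exact le_add_of_nonneg_right (Finset.sum_nonneg fun n _ =>
        Set.indicator_nonneg (fun _ _ => hw0 n) x)
    · have hK' : K0 < A.ncard := not_le.1 hK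
      have hne : hfin.toFinset.Nonempty := by
        rw [hfin.toFinset_nonempty, ← Set.ncard_pos hfin]
        omega
      obtain ⟨n, hn⟩ : ∃ n, n = hfin.toFinset.min' hne := ⟨_, rfl⟩
      obtain ⟨n', hn'⟩ : ∃ n', n' = hfin.toFinset.max' hne := ⟨_, rfl⟩
      have hnA : n ∈ A := by
        rw [hn]
        exact hfin.mem_toFinset.1 (Finset.min'_mem _ hne)
      have hn'A : n' ∈ A := by
        rw [hn']
        exact hfin.mem_toFinset.1 (Finset.max'_mem _ hne)
      have hnn' : n ≤ n' := by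
        rw [hn]
        exact Finset.min'_le _ _ (hfin.mem_toFinset.2 hn'A)
      have hFsub : hfin.toFinset ⊆ Finset.Icc n n' := fun z hz => Finset.mem_Icc.2
        ⟨hn ▸ Finset.min'_le _ z hz, hn' ▸ Finset.le_max' _ z hz⟩
      have hcF : A.ncard ≤ n' + 1 - n := by
        rw [Set.ncard_eq_toFinset_card A hfin, ← Nat.card_Icc]
        exact Finset.card_le_card hFsub
      obtain ⟨k, hk⟩ := Nat.exists_eq_add_of_le hnn'
      have hkm : A.ncard - 1 ≤ k := by omega
      obtain ⟨a1, a2, a3⟩ := (hmA n).1 hnA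
      obtain ⟨b1, b2, b3⟩ := (hmA n').1 hn'A
      have hEn : n ∈ E (A.ncard - 1) := by
        rw [hE]
        refine ⟨a1, (Finset.mem_Icc.1 (hsub n hnA)).2, k, hkm, ?_⟩
        rw [← hk]
        have h3 : (4 * L : ℝ) ≤ k := by
          have : 4 * L ≤ k := by omega
          exact_mod_cast this
        have h4 := neg_le_abs (u n' - u n - k)
        linarith
      have h6 : (4 : ℝ) ^ A.ncard ≤ w n := by
        have hm : A.ncard - 1 ∈ Finset.Ico K0 N' := by
          rw [Finset.mem_Ico]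
          omega
        have h7 := Finset.single_le_sum
          (f := fun m => (4 : ℝ) ^ (m + 1) * (if n ∈ E m then 1 else 0))
          (fun m _ => by split_ifs <;> positivity) hm
        simp only [if_pos hEn, mul_one] at h7
        rw [Nat.sub_add_cancel (by omega)] at h7
        rw [hw]
        exact h7
      have h7 : x ∈ Set.Icc (u n - L) (u n + L) := ⟨by linarith, by linarith⟩
      have h8 := Finset.single_le_sum
        (f := fun n => (Set.Icc (u n - L) (u n + L)).indicator (fun _ => w n) x)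
        (fun n _ => Set.indicator_nonneg (fun _ _ => hw0 n) x) (hsub n hnA)
      simp only [Set.indicator_of_mem h7] at h8
      rw [hg]
      have h9 : (0 : ℝ) ≤ 4 ^ K0 := by positivity
      exact (h6.trans h8).trans (le_add_of_nonneg_left h9)
  have hci : Integrable (fun _ : ℝ => (4 : ℝ) ^ K0) (volume.restrict (Set.Ioc 0 (N : ℝ))) :=
    integrable_const _
  have hni : ∀ n : ℕ, Integrable (fun x : ℝ => (Set.Icc (u n - L) (u n + L)).indicator
      (fun _ => w n) x) (volume.restrict (Set.Ioc 0 (N : ℝ))) := fun n =>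
    (integrable_const (w n)).indicator measurableSet_Icc
  have hgi : Integrable g (volume.restrict (Set.Ioc 0 (N : ℝ))) := by
    rw [hg]
    exact hci.add (integrable_finset_sum _ fun n _ => hni n)
  have hint : ∫ x in (0 : ℝ)..N,
      (4 : ℝ) ^ ({n : ℕ | 1 ≤ n ∧ u n - x ∈ Set.Icc (-(L : ℝ)) L}.ncard) ≤
      ∫ x in Set.Ioc 0 (N : ℝ), g x := by
    rw [intervalIntegral.integral_of_le hN0.le]
    refine integral_mono_of_nonneg (Eventually.of_forall fun x => by positivity) hgi ?_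
    exact (ae_restrict_iff' measurableSet_Ioc).2 (Eventually.of_forall hpt)
  have hgb : ∫ x in Set.Ioc 0 (N : ℝ), g x ≤
      N * 4 ^ K0 + 2 * L * ∑ n ∈ Finset.Icc 1 N', w n := by
    rw [hg, integral_add hci (integrable_finset_sum _ fun n _ => hni n),
      integral_finset_sum _ fun n _ => hni n]
    refine add_le_add ?_ ?_
    · rw [integral_const, smul_eq_mul, measureReal_restrict_apply_univ, Real.volume_real_Ioc_of_le
        hN0.le, sub_zero]
    · rw [Finset.mul_sum]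
      refine Finset.sum_le_sum fun n _ => ?_
      rw [integral_indicator_const _ measurableSet_Icc, smul_eq_mul,
        measureReal_restrict_apply measurableSet_Icc]
      refine mul_le_mul_of_nonneg_right ?_ (hw0 n)
      have h8 : (0 : ℝ) ≤ L := Nat.cast_nonneg _
      calc volume.real (Set.Icc (u n - L) (u n + L) ∩ Set.Ioc 0 (N : ℝ))
          ≤ volume.real (Set.Icc (u n - L) (u n + L)) := by
            refine measureReal_mono Set.inter_subset_left ?_
            rw [Real.volume_Icc]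
            exact ENNReal.ofReal_ne_top
        _ = 2 * L := by
            rw [Real.volume_real_Icc_of_le (by linarith)]
            ring
  have hws : ∑ n ∈ Finset.Icc 1 N', w n ≤ N' * S := by
    have h1 : ∀ m, ((Finset.Icc 1 N').filter (fun n => n ∈ E m) : Set ℕ) = E m := by
      intro m
      ext n
      simp only [Finset.coe_filter, Finset.mem_Icc, Set.mem_setOf_eq]
      constructor
      · exact fun h => h.2
      · intro h
        refine ⟨?_, h⟩
        rw [hE] at h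
        exact ⟨h.1, h.2.1⟩
    have h2 : ∑ n ∈ Finset.Icc 1 N', w n =
        ∑ m ∈ Finset.Ico K0 N', (4 : ℝ) ^ (m + 1) * ((E m).ncard : ℝ) := by
      rw [hw, Finset.sum_comm]
      refine Finset.sum_congr rfl fun m _ => ?_
      rw [← Finset.mul_sum, Finset.sum_boole, ← Set.ncard_coe_finset, h1]
    rw [h2]
    have h3 : ∀ m ∈ Finset.Ico K0 N', (4 : ℝ) ^ (m + 1) * ((E m).ncard : ℝ) ≤
        N' * ((4 : ℝ) ^ (m + 1) * Real.exp (-c * m * Real.log m)) := by
      intro m hm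
      have h4 := hL N' hN'1 m (hK1.trans (Finset.mem_Ico.1 hm).1)
      have h5 : (E m).ncard = {n : ℕ | 1 ≤ n ∧ n ≤ N' ∧ ∃ k : ℕ, m ≤ k ∧
          1 / 2 * (k : ℝ) ≤ |u (n + k) - u n - k|}.ncard := by rw [hE]
      rw [← h5] at h4
      have h6 : (0 : ℝ) ≤ 4 ^ (m + 1) := by positivity
      calc (4 : ℝ) ^ (m + 1) * ((E m).ncard : ℝ)
          ≤ 4 ^ (m + 1) * (N' * Real.exp (-c * m * Real.log m)) :=
            mul_le_mul_of_nonneg_left h4 h6
        _ = _ := by ring
    refine (Finset.sum_le_sum h3).trans ?_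
    rw [← Finset.mul_sum]
    refine mul_le_mul_of_nonneg_left ?_ (Nat.cast_nonneg _)
    rw [hS]
    exact (summ c hc).sum_le_tsum _ fun m _ => by positivity
  have hfinal : ∫ x in (0 : ℝ)..N,
      (4 : ℝ) ^ ({n : ℕ | 1 ≤ n ∧ u n - x ∈ Set.Icc (-(L : ℝ)) L}.ncard) ≤
      N * (4 ^ K0 + 2 * L * D * S) := by
    refine hint.trans (hgb.trans ?_)
    have h8 : (0 : ℝ) ≤ 2 * L := by positivity
    have h9 := mul_le_mul_of_nonneg_left hws h8
    have h10 : (N' : ℝ) = D * N := by rw [hN']; push_cast; ring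
    rw [h10] at h9
    linarith
  rw [one_div, inv_mul_le_iff₀ hN0]
  exact hfinal

end Pool.Agent.Y758.SR
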